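import Pool.Agent.H11.GIU.Final

/-!
# The number of Giuga numbers up to `x` is `O (√x)`
-/

set_option autoImplicit false

namespace Pool.Agent.Results.MP_2cd980_nt.RootBound

/-- For every real `x ≥ 0` there are at most `10 ^ 6 * √x` Giuga numbers `n ≤ x`. -/
theorem result : ∀ x : ℝ, 0 ≤ x →
    ({n : ℕ | (n : ℝ) ≤ x ∧ 1 < n ∧ ¬ n.Prime ∧
      ∀ p : ℕ, p.Prime → p ∣ n → p ∣ n / p - 1}.ncard : ℝ) ≤ 10 ^ 6 * √x :=
  fun x hx => Pool.Agent.H11.GIU.count_root x hx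

end Pool.Agent.Results.MP_2cd980_nt.RootBound
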